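import Pool.Agent.P8H16.RF.Stm

set_option autoImplicit false

/-!
# Package GEN of project RF: Montgomery's bound is equivalent to its dual form
-/

namespace Pool.Agent.P8H61.RF

open Finset MeasureTheory Pool.Agent.P8H16.RF

lemma e_norm (y : ℝ) : ‖e y‖ = 1 := by
  unfold e
  exact Complex.norm_exp_ofReal_mul_I y

lemma lev (u : ℕ → ℝ) (hu : ∀ i, 0 ≤ u i) (y : ℝ) (I : ℕ) (h : y ≤ 2 * u I) :
    y ≤ 2 * (u 0 + ∑ i ∈ range I, if u i < y then u (i + 1) else 0) := by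
  induction I with
  | zero => simpa using h
  | succ I ih =>
    rw [sum_range_succ]
    have hs : 0 ≤ ∑ i ∈ range I, (if u i < y then u (i + 1) else 0) :=
      sum_nonneg fun i _ => by
        split_ifs
        · exact hu _
        · exact le_refl _
    by_cases hy : u I < y
    · rw [if_pos hy]
      have := hu 0
      linarith
    · rw [if_neg hy]
      have h2 := ih (by have := hu I; linarith [not_lt.1 hy])
      linarith

lemma phase (z : ℂ) : ∃ b : ℂ, ‖b‖ ≤ 1 ∧ b * z = ((‖z‖ : ℝ) : ℂ) := by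
  by_cases hz : z = 0
  · exact ⟨0, by simp, by simp [hz]⟩
  · have h0 : (‖z‖ : ℝ) ≠ 0 := by simpa using hz
    have h1 : ((‖z‖ : ℝ) : ℂ) ≠ 0 := by exact_mod_cast h0
    refine ⟨(starRingEnd ℂ z) / ((‖z‖ : ℝ) : ℂ), ?_, ?_⟩
    · rw [norm_div, RCLike.norm_conj, Complex.norm_real, norm_norm, div_self h0]
    · rw [div_mul_eq_mul_div, Complex.conj_mul', div_eq_iff h1, sq]

lemma dual (S : Finset ℕ) (M : ℕ) (a b : ℕ → ℂ) (x : ℕ → ℝ) :
    ∑ n ∈ S, b n * F M a (x n) = ∑ t ∈ range M, a t * ∑ n ∈ S, b n * e ((t : ℝ) * x n) := by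
  simp only [F, mul_sum]
  rw [sum_comm]
  exact sum_congr rfl fun t _ => sum_congr rfl fun n _ => by ring

lemma D_le (N : ℕ) (b : ℕ → ℂ) (hb : ∀ n, ‖b n‖ ≤ 1) (y : ℕ → ℝ) :
    ‖∑ n ∈ Icc N (2 * N), b n * e (y n)‖ ≤ (N : ℝ) + 1 := by
  refine (norm_sum_le _ _).trans ?_
  have h1 : ∀ n ∈ Icc N (2 * N), ‖b n * e (y n)‖ ≤ 1 := fun n _ => by
    rw [norm_mul, e_norm, mul_one]
    exact hb n
  refine (sum_le_card_nsmul _ _ 1 h1).trans ?_
  rw [Nat.card_Icc, nsmul_eq_mul, mul_one]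
  have : 2 * N + 1 - N = N + 1 := by omega
  rw [this]
  push_cast
  exact le_refl _

lemma cs (V : Finset ℕ) (M : ℕ) (hV : V ⊆ range M) (a : ℕ → ℂ) :
    ∑ t ∈ V, ‖a t‖ ≤ Real.sqrt (V.card : ℝ) * n2 M a := by
  have h1 : (∑ t ∈ V, ‖a t‖) ^ 2 ≤ (V.card : ℝ) * ∑ t ∈ V, ‖a t‖ ^ 2 := sq_sum_le_card_mul_sum_sq
  have h2 : ∑ t ∈ V, ‖a t‖ ^ 2 ≤ ∑ t ∈ range M, ‖a t‖ ^ 2 :=
    sum_le_sum_of_subset_of_nonneg hV fun _ _ _ => by positivity
  have h3 : (∑ t ∈ V, ‖a t‖) ^ 2 ≤ (V.card : ℝ) * ∑ t ∈ range M, ‖a t‖ ^ 2 :=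
    h1.trans (mul_le_mul_of_nonneg_left h2 (Nat.cast_nonneg _))
  unfold n2
  rw [← Real.sqrt_mul (Nat.cast_nonneg _)]
  exact (le_abs_self _).trans (Real.abs_le_sqrt h3)

theorem fwd (x : ℕ → ℝ) (A s : ℝ) (hA : 1 ≤ A) (hB : Bound x A s) (hs : 0 ≤ s) : L1 x A s := by
  intro ε hε
  obtain ⟨η, hη⟩ : ∃ η : ℝ, η = ε / 4 := ⟨_, rfl⟩
  have hηp : 0 < η := by rw [hη]; positivity
  obtain ⟨I, hI⟩ := exists_nat_gt (1 / η)
  have hI' : 1 < (I : ℝ) * η := by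
    rw [div_lt_iff₀ hηp] at hI
    exact hI
  choose C hC using fun i : ℕ => hB (s + ((i : ℝ) + 1) * η)
    (by have : 0 < ((i : ℝ) + 1) * η := by positivity
        linarith) η hηp
  refine ⟨2 + 2 * ∑ i ∈ range I, Real.sqrt |C i|, by positivity, ?_⟩
  intro N M a hN hM
  have hN1 : (1 : ℝ) ≤ N := by exact_mod_cast hN
  have hN0 : (0 : ℝ) < N := by linarith
  choose b hb1 hb2 using fun n => phase (F M a (x n))
  obtain ⟨D, hDdef⟩ : ∃ D : ℕ → ℂ, D = fun t : ℕ => ∑ n ∈ Icc N (2 * N), b n * e ((t : ℝ) * x n) :=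
    ⟨_, rfl⟩
  obtain ⟨u, hu⟩ : ∃ u : ℕ → ℝ, u = fun i : ℕ => (N : ℝ) ^ (s + ((i : ℝ) + 1) * η) := ⟨_, rfl⟩
  have hu0 : ∀ i, 0 ≤ u i := fun i => by rw [hu]; positivity
  have hD1 : ∀ t, ‖D t‖ ≤ 2 * u I := fun t => by
    have h1 : ‖D t‖ ≤ (N : ℝ) + 1 := by rw [hDdef]; exact D_le N b hb1 _
    have h2 : (N : ℝ) ^ (1 : ℝ) ≤ u I := by
      rw [hu]
      apply Real.rpow_le_rpow_of_exponent_le hN1
      nlinarith
    rw [Real.rpow_one] at h2
    linarith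
  have hsum : ∑ n ∈ Icc N (2 * N), ‖F M a (x n)‖ ≤ ∑ t ∈ range M, ‖a t‖ * ‖D t‖ := by
    have h1 : ((∑ n ∈ Icc N (2 * N), ‖F M a (x n)‖ : ℝ) : ℂ) = ∑ t ∈ range M, a t * D t := by
      rw [hDdef, ← dual, Complex.ofReal_sum]
      exact sum_congr rfl fun n _ => (hb2 n).symm
    have h2 : ∑ n ∈ Icc N (2 * N), ‖F M a (x n)‖ = ‖∑ t ∈ range M, a t * D t‖ := by
      rw [← h1, Complex.norm_real, Real.norm_of_nonneg (sum_nonneg fun _ _ => norm_nonneg _)]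
    rw [h2]
    refine (norm_sum_le _ _).trans (le_of_eq ?_)
    exact sum_congr rfl fun t _ => norm_mul _ _
  have hlev : ∀ t, ‖D t‖ ≤ 2 * (u 0 + ∑ i ∈ range I, if u i < ‖D t‖ then u (i + 1) else 0) :=
    fun t => lev u hu0 _ I (hD1 t)
  have hV : ∀ i ∈ range I, u (i + 1) * ∑ t ∈ (range M).filter (fun t => u i < ‖D t‖), ‖a t‖ ≤
      Real.sqrt |C i| * ((N : ℝ) ^ ε * ((N : ℝ) * n2 M a)) := by
    intro i _
    obtain ⟨V, hVd⟩ : ∃ V : Finset ℕ, V = (range M).filter (fun t => u i < ‖D t‖) := ⟨_, rfl⟩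
    rw [← hVd]
    have hcard : (V.card : ℝ) ≤ C i * (N : ℝ) ^ (2 - 2 * (s + ((i : ℝ) + 1) * η) + η) := by
      have h1 := hC i N hN ((N : ℝ) ^ A)
        (by
          calc (N : ℝ) = (N : ℝ) ^ (1 : ℝ) := (Real.rpow_one _).symm
            _ ≤ (N : ℝ) ^ A := Real.rpow_le_rpow_of_exponent_le hN1 hA) le_rfl b hb1
        (V.image (fun t : ℕ => (t : ℤ)))
        (by
          intro t ht
          rw [mem_image] at ht
          obtain ⟨k, hk, rfl⟩ := ht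
          rw [hVd, mem_filter, mem_range] at hk
          refine ⟨by positivity, ?_, ?_⟩
          · have h2 : ((k + 1 : ℕ) : ℝ) ≤ (M : ℝ) := by exact_mod_cast hk.1
            push_cast at h2 ⊢
            linarith
          · have h3 := hk.2
            rw [hu, hDdef] at h3
            simpa using h3)
      rw [card_image_of_injective _ Nat.cast_injective] at h1
      exact h1
    have hcard2 : (V.card : ℝ) ≤ |C i| * (N : ℝ) ^ (2 - 2 * (s + ((i : ℝ) + 1) * η) + η) :=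
      hcard.trans (mul_le_mul_of_nonneg_right (le_abs_self _) (by positivity))
    have hsq : Real.sqrt (V.card : ℝ) ≤
        Real.sqrt |C i| * (N : ℝ) ^ (1 - (s + ((i : ℝ) + 1) * η) + η / 2) := by
      refine (Real.sqrt_le_sqrt hcard2).trans ?_
      rw [Real.sqrt_mul (abs_nonneg _)]
      refine mul_le_mul_of_nonneg_left (le_of_eq ?_) (Real.sqrt_nonneg _)
      rw [Real.sqrt_eq_rpow, ← Real.rpow_mul hN0.le]
      congr 1
      ring
    have hn2 : 0 ≤ n2 M a := Real.sqrt_nonneg _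
    have hcs := cs V M (by rw [hVd]; exact filter_subset _ _) a
    have e1 : u (i + 1) * (N : ℝ) ^ (1 - (s + ((i : ℝ) + 1) * η) + η / 2) ≤ (N : ℝ) ^ ε * N := by
      rw [hu]
      simp only
      rw [← Real.rpow_add hN0]
      calc _ ≤ (N : ℝ) ^ (ε + 1) := by
            apply Real.rpow_le_rpow_of_exponent_le hN1
            push_cast
            rw [hη]
            nlinarith
        _ = _ := by rw [Real.rpow_add hN0, Real.rpow_one]
    calc u (i + 1) * ∑ t ∈ V, ‖a t‖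
        ≤ u (i + 1) * ((Real.sqrt |C i| * (N : ℝ) ^ (1 - (s + ((i : ℝ) + 1) * η) + η / 2)) *
            n2 M a) := by
          apply mul_le_mul_of_nonneg_left _ (hu0 _)
          exact hcs.trans (mul_le_mul_of_nonneg_right hsq hn2)
      _ = Real.sqrt |C i| * ((u (i + 1) * (N : ℝ) ^ (1 - (s + ((i : ℝ) + 1) * η) + η / 2)) *
            n2 M a) := by ring
      _ ≤ Real.sqrt |C i| * (((N : ℝ) ^ ε * N) * n2 M a) :=
          mul_le_mul_of_nonneg_left (mul_le_mul_of_nonneg_right e1 hn2) (Real.sqrt_nonneg _)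
      _ = _ := by ring
  have hn1 : 0 ≤ n1 M a := sum_nonneg fun _ _ => norm_nonneg _
  have hn2 : 0 ≤ n2 M a := Real.sqrt_nonneg _
  have hu00 : u 0 ≤ (N : ℝ) ^ ε * (N : ℝ) ^ s := by
    rw [hu, ← Real.rpow_add hN0]
    apply Real.rpow_le_rpow_of_exponent_le hN1
    push_cast
    rw [hη]
    linarith
  have hS0 : 0 ≤ ∑ i ∈ range I, Real.sqrt |C i| := sum_nonneg fun _ _ => Real.sqrt_nonneg _
  have hNe : 0 ≤ (N : ℝ) ^ ε := by positivity
  have hNs : 0 ≤ (N : ℝ) ^ s := by positivity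
  calc ∑ n ∈ Icc N (2 * N), ‖F M a (x n)‖ ≤ ∑ t ∈ range M, ‖a t‖ * ‖D t‖ := hsum
    _ ≤ ∑ t ∈ range M, ‖a t‖ *
          (2 * (u 0 + ∑ i ∈ range I, if u i < ‖D t‖ then u (i + 1) else 0)) :=
        sum_le_sum fun t _ => mul_le_mul_of_nonneg_left (hlev t) (norm_nonneg _)
    _ = 2 * (u 0 * n1 M a) + 2 * ∑ i ∈ range I,
          u (i + 1) * ∑ t ∈ (range M).filter (fun t => u i < ‖D t‖), ‖a t‖ := by
        have h1 : ∀ i ∈ range I,
            u (i + 1) * ∑ t ∈ (range M).filter (fun t => u i < ‖D t‖), ‖a t‖ =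
            ∑ t ∈ range M, ‖a t‖ * (if u i < ‖D t‖ then u (i + 1) else 0) := by
          intro i _
          rw [sum_filter, mul_sum]
          refine sum_congr rfl fun t _ => ?_
          split_ifs <;> ring
        rw [sum_congr rfl h1, sum_comm, n1, mul_sum, mul_sum, mul_sum, ← sum_add_distrib]
        refine sum_congr rfl fun t _ => ?_
        rw [← mul_sum]
        ring
    _ ≤ 2 * (((N : ℝ) ^ ε * (N : ℝ) ^ s) * n1 M a) + 2 * ∑ i ∈ range I,
          Real.sqrt |C i| * ((N : ℝ) ^ ε * ((N : ℝ) * n2 M a)) := by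
        have h1 := mul_le_mul_of_nonneg_right hu00 hn1
        have h2 := sum_le_sum hV
        linarith
    _ = 2 * (((N : ℝ) ^ ε * (N : ℝ) ^ s) * n1 M a) + 2 * (∑ i ∈ range I, Real.sqrt |C i|) *
          ((N : ℝ) ^ ε * ((N : ℝ) * n2 M a)) := by
        rw [← sum_mul]
        ring
    _ ≤ _ := by
        have p1 : 0 ≤ (N : ℝ) ^ ε * ((N : ℝ) ^ s * n1 M a) := by positivity
        have p2 : 0 ≤ (N : ℝ) ^ ε * ((N : ℝ) * n2 M a) := by positivity
        have p3 := mul_nonneg hS0 p1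
        nlinarith

theorem bwd (x : ℕ → ℝ) (A s : ℝ) (hL : L1 x A s) : Bound x A s := by
  intro σ hσ ε hε
  obtain ⟨τ, hτ⟩ : ∃ τ : ℝ, τ = (σ - s) / 2 := ⟨_, rfl⟩
  have hτ0 : 0 < τ := by rw [hτ]; linarith
  obtain ⟨δ, hδ⟩ : ∃ δ : ℝ, δ = min (ε / 2) τ := ⟨_, rfl⟩
  have hδ0 : 0 < δ := by rw [hδ]; exact lt_min (by positivity) hτ0
  have hδ1 : δ ≤ ε / 2 := by rw [hδ]; exact min_le_left _ _
  have hδ2 : δ ≤ τ := by rw [hδ]; exact min_le_right _ _
  obtain ⟨C, hC0, hC⟩ := hL δ hδ0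
  obtain ⟨K, hK⟩ : ∃ K : ℝ, K = max (2 * C) 1 := ⟨_, rfl⟩
  have hK1 : 1 ≤ K := by rw [hK]; exact le_max_right _ _
  have hK2 : 2 * C ≤ K := by rw [hK]; exact le_max_left _ _
  obtain ⟨z, hz⟩ : ∃ z : ℝ, z = |A| - (2 - 2 * σ + ε) := ⟨_, rfl⟩
  refine ⟨4 * C ^ 2 + 2 * (K ^ (1 / τ)) ^ |z|, ?_⟩
  intro N hN T hT1 hT2 b hb W hW
  have hN1 : (1 : ℝ) ≤ N := by exact_mod_cast hN
  have hN0 : (0 : ℝ) < N := by linarith
  have hT0 : 0 ≤ T := by linarith
  obtain ⟨M, hM⟩ : ∃ M : ℕ, M = ⌊T⌋₊ + 1 := ⟨_, rfl⟩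
  have hMT : (M : ℝ) ≤ T + 1 := by
    rw [hM]
    push_cast
    have := Nat.floor_le hT0
    linarith
  have hMA : (M : ℝ) ≤ (N : ℝ) ^ A + 1 := by linarith
  obtain ⟨D, hDdef⟩ : ∃ D : ℕ → ℂ, D = fun t : ℕ => ∑ n ∈ Icc N (2 * N), b n * e ((t : ℝ) * x n) :=
    ⟨_, rfl⟩
  choose p hp1 hp2 using fun t => phase (D t)
  obtain ⟨V, hV⟩ : ∃ V : Finset ℕ, V = (range M).filter (fun t : ℕ => (t : ℤ) ∈ W) := ⟨_, rfl⟩
  have hWV : W = V.image (fun t : ℕ => (t : ℤ)) := by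
    ext t
    rw [mem_image]
    constructor
    · intro ht
      obtain ⟨h0, h1, _⟩ := hW t ht
      have h0' : 0 ≤ t := by exact_mod_cast h0
      refine ⟨t.toNat, ?_, Int.toNat_of_nonneg h0'⟩
      rw [hV, mem_filter, mem_range, hM]
      refine ⟨?_, by rw [Int.toNat_of_nonneg h0']; exact ht⟩
      rw [Nat.lt_succ_iff]
      apply Nat.le_floor
      have h2 : ((t.toNat : ℤ) : ℝ) = (t : ℝ) := by rw [Int.toNat_of_nonneg h0']
      have h3 : ((t.toNat : ℕ) : ℝ) = (t : ℝ) := by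
        rw [← h2]
        push_cast
        rfl
      rw [h3]
      exact h1
    · rintro ⟨k, hk, rfl⟩
      rw [hV, mem_filter] at hk
      exact hk.2
  have hcard : W.card = V.card := by
    rw [hWV, card_image_of_injective _ Nat.cast_injective]
  have hVM : V.card ≤ M := by
    have := card_le_card (filter_subset (fun t : ℕ => (t : ℤ) ∈ W) (range M))
    rw [card_range] at this
    rw [hV]
    exact this
  rw [hcard]
  obtain ⟨R, hR⟩ : ∃ R : ℝ, R = (V.card : ℝ) := ⟨_, rfl⟩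
  have hR0 : 0 ≤ R := by rw [hR]; exact Nat.cast_nonneg _
  rw [← hR]
  -- the choice of the coefficients
  obtain ⟨a, ha⟩ : ∃ a : ℕ → ℂ, a = fun t : ℕ => if (t : ℤ) ∈ W then p t else 0 := ⟨_, rfl⟩
  have han : ∀ t, ‖a t‖ ≤ if (t : ℤ) ∈ W then 1 else 0 := by
    intro t
    rw [ha]
    simp only
    split_ifs
    · exact hp1 t
    · simp
  have hn1 : n1 M a ≤ R := by
    unfold n1
    refine (sum_le_sum fun t _ => han t).trans ?_
    rw [hR, hV, card_filter]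
    push_cast
    exact le_refl _
  have hn2 : n2 M a ≤ Real.sqrt R := by
    unfold n2
    apply Real.sqrt_le_sqrt
    have : ∀ t ∈ range M, ‖a t‖ ^ 2 ≤ if (t : ℤ) ∈ W then (1 : ℝ) else 0 := by
      intro t _
      have h1 := han t
      split_ifs at h1 ⊢ with h
      · have := norm_nonneg (a t)
        nlinarith
      · have h2 := norm_nonneg (a t)
        have h3 : ‖a t‖ = 0 := le_antisymm h1 h2
        rw [h3]
        norm_num
    refine (sum_le_sum this).trans ?_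
    rw [hR, hV, card_filter]
    push_cast
    exact le_refl _
  have hlow : R * (N : ℝ) ^ σ ≤ ∑ n ∈ Icc N (2 * N), ‖F M a (x n)‖ := by
    have h1 : ∑ t ∈ range M, a t * D t = ((∑ t ∈ V, ‖D t‖ : ℝ) : ℂ) := by
      rw [hV, sum_filter, Complex.ofReal_sum]
      refine sum_congr rfl fun t _ => ?_
      rw [ha]
      simp only
      split_ifs
      · exact hp2 t
      · simp
    have h2 : ∑ t ∈ V, ‖D t‖ ≤ ∑ n ∈ Icc N (2 * N), ‖F M a (x n)‖ := by
      have h3 : ∑ t ∈ V, ‖D t‖ = ‖∑ n ∈ Icc N (2 * N), b n * F M a (x n)‖ := by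
        rw [dual]
        have h4 : ∑ t ∈ range M, a t * ∑ n ∈ Icc N (2 * N), b n * e ((t : ℝ) * x n) =
            ∑ t ∈ range M, a t * D t := by rw [hDdef]
        rw [h4, h1, Complex.norm_real, Real.norm_of_nonneg (sum_nonneg fun _ _ => norm_nonneg _)]
      rw [h3]
      refine (norm_sum_le _ _).trans (sum_le_sum fun n _ => ?_)
      rw [norm_mul]
      have := hb n
      have := norm_nonneg (F M a (x n))
      nlinarith
    refine le_trans ?_ h2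
    have h5 : ∀ t ∈ V, (N : ℝ) ^ σ ≤ ‖D t‖ := by
      intro t ht
      rw [hV, mem_filter] at ht
      have h6 := (hW _ ht.2).2.2
      rw [hDdef]
      simpa using h6.le
    have h7 := card_nsmul_le_sum V _ _ h5
    rw [nsmul_eq_mul, ← hR] at h7
    exact h7
  have hup := hC N M a hN hMA
  have hNδ : 0 < (N : ℝ) ^ δ := Real.rpow_pos_of_pos hN0 _
  have hNs : 0 < (N : ℝ) ^ s := Real.rpow_pos_of_pos hN0 _
  have hNσ : 0 < (N : ℝ) ^ σ := Real.rpow_pos_of_pos hN0 _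
  have key : R * (N : ℝ) ^ σ ≤ C * (N : ℝ) ^ δ * ((N : ℝ) * Real.sqrt R + (N : ℝ) ^ s * R) := by
    refine hlow.trans (hup.trans ?_)
    apply mul_le_mul_of_nonneg_left _ (by positivity)
    have h1 := mul_le_mul_of_nonneg_left hn2 hN0.le
    have h2 := mul_le_mul_of_nonneg_left hn1 hNs.le
    linarith
  have hE : 0 < (N : ℝ) ^ (2 - 2 * σ + ε) := Real.rpow_pos_of_pos hN0 _
  have hKp : 0 ≤ (K ^ (1 / τ)) ^ |z| := by positivity
  by_cases hcase : C * (N : ℝ) ^ δ * (N : ℝ) ^ s ≤ (N : ℝ) ^ σ / 2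
  · -- main case
    have hr0 : 0 ≤ Real.sqrt R := Real.sqrt_nonneg _
    have hrR : Real.sqrt R * Real.sqrt R = R := Real.mul_self_sqrt hR0
    have h1 : R * (N : ℝ) ^ σ ≤ 2 * C * (N : ℝ) ^ δ * N * Real.sqrt R := by
      have := mul_le_mul_of_nonneg_right hcase hR0
      nlinarith
    have h2 : Real.sqrt R * (N : ℝ) ^ σ ≤ 2 * C * (N : ℝ) ^ δ * N := by
      rcases hr0.eq_or_lt with h | h
      · rw [← h, zero_mul]
        positivity
      · apply le_of_mul_le_mul_right _ h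
        calc Real.sqrt R * (N : ℝ) ^ σ * Real.sqrt R
            = (Real.sqrt R * Real.sqrt R) * (N : ℝ) ^ σ := by ring
          _ = R * (N : ℝ) ^ σ := by rw [hrR]
          _ ≤ _ := h1
    have h3 : Real.sqrt R ≤ 2 * C * (N : ℝ) ^ (1 + δ - σ) := by
      have e1 : (N : ℝ) ^ (1 + δ - σ) * (N : ℝ) ^ σ = (N : ℝ) ^ δ * N := by
        rw [← Real.rpow_add hN0]
        have : 1 + δ - σ + σ = δ + 1 := by ring
        rw [this, Real.rpow_add hN0, Real.rpow_one]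
      apply le_of_mul_le_mul_right _ hNσ
      calc Real.sqrt R * (N : ℝ) ^ σ ≤ 2 * C * (N : ℝ) ^ δ * N := h2
        _ = 2 * C * ((N : ℝ) ^ δ * N) := by ring
        _ = 2 * C * ((N : ℝ) ^ (1 + δ - σ) * (N : ℝ) ^ σ) := by rw [e1]
        _ = _ := by ring
    have h4 : R ≤ 4 * C ^ 2 * (N : ℝ) ^ (2 - 2 * σ + ε) := by
      have e2 : (N : ℝ) ^ (1 + δ - σ) * (N : ℝ) ^ (1 + δ - σ) ≤ (N : ℝ) ^ (2 - 2 * σ + ε) := by
        rw [← Real.rpow_add hN0]
        apply Real.rpow_le_rpow_of_exponent_le hN1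
        linarith
      calc R = Real.sqrt R * Real.sqrt R := hrR.symm
        _ ≤ (2 * C * (N : ℝ) ^ (1 + δ - σ)) * (2 * C * (N : ℝ) ^ (1 + δ - σ)) :=
            mul_le_mul h3 h3 hr0 (by positivity)
        _ = 4 * C ^ 2 * ((N : ℝ) ^ (1 + δ - σ) * (N : ℝ) ^ (1 + δ - σ)) := by ring
        _ ≤ _ := mul_le_mul_of_nonneg_left e2 (by positivity)
    have h5 := mul_nonneg (mul_nonneg zero_le_two hKp) hE.le
    have h8 : (4 * C ^ 2 + 2 * (K ^ (1 / τ)) ^ |z|) * (N : ℝ) ^ (2 - 2 * σ + ε) =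
        4 * C ^ 2 * (N : ℝ) ^ (2 - 2 * σ + ε) +
          2 * (K ^ (1 / τ)) ^ |z| * (N : ℝ) ^ (2 - 2 * σ + ε) := by ring
    rw [h8]
    linarith
  · -- small N
    rw [not_le] at hcase
    have h1 : (N : ℝ) ^ τ ≤ K := by
      have e1 : (N : ℝ) ^ σ = (N : ℝ) ^ (σ - s - δ) * ((N : ℝ) ^ δ * (N : ℝ) ^ s) := by
        rw [← Real.rpow_add hN0, ← Real.rpow_add hN0]
        congr 1
        ring
      have e2 : (N : ℝ) ^ (σ - s - δ) ≤ 2 * C := by
        have hpos : 0 < (N : ℝ) ^ δ * (N : ℝ) ^ s := by positivity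
        apply le_of_mul_le_mul_right _ hpos
        rw [← e1]
        linarith
      have e3 : (N : ℝ) ^ τ ≤ (N : ℝ) ^ (σ - s - δ) := by
        apply Real.rpow_le_rpow_of_exponent_le hN1
        rw [hτ] at hδ2 ⊢
        linarith
      linarith
    have h2 : (N : ℝ) ≤ K ^ (1 / τ) := by
      have := Real.rpow_le_rpow (by positivity) h1 (by positivity : (0 : ℝ) ≤ 1 / τ)
      rw [← Real.rpow_mul hN0.le, mul_one_div_cancel hτ0.ne', Real.rpow_one] at this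
      exact this
    have h3 : R ≤ 2 * (N : ℝ) ^ |A| := by
      have e1 : R ≤ (M : ℝ) := by rw [hR]; exact_mod_cast hVM
      have e2 : (N : ℝ) ^ A ≤ (N : ℝ) ^ |A| :=
        Real.rpow_le_rpow_of_exponent_le hN1 (le_abs_self _)
      have e3 : (1 : ℝ) ≤ (N : ℝ) ^ |A| := Real.one_le_rpow hN1 (abs_nonneg _)
      linarith
    have h4 : (N : ℝ) ^ |A| = (N : ℝ) ^ z * (N : ℝ) ^ (2 - 2 * σ + ε) := by
      rw [← Real.rpow_add hN0, hz]
      congr 1
      ring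
    have h5 : (N : ℝ) ^ z ≤ (K ^ (1 / τ)) ^ |z| :=
      (Real.rpow_le_rpow_of_exponent_le hN1 (le_abs_self z)).trans
        (Real.rpow_le_rpow hN0.le h2 (abs_nonneg _))
    have h6 : (N : ℝ) ^ |A| ≤ (K ^ (1 / τ)) ^ |z| * (N : ℝ) ^ (2 - 2 * σ + ε) := by
      rw [h4]
      exact mul_le_mul_of_nonneg_right h5 hE.le
    have h7 : 0 ≤ 4 * C ^ 2 * (N : ℝ) ^ (2 - 2 * σ + ε) := by positivity
    have h8 : (4 * C ^ 2 + 2 * (K ^ (1 / τ)) ^ |z|) * (N : ℝ) ^ (2 - 2 * σ + ε) =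
        4 * C ^ 2 * (N : ℝ) ^ (2 - 2 * σ + ε) +
          2 * ((K ^ (1 / τ)) ^ |z| * (N : ℝ) ^ (2 - 2 * σ + ε)) := by ring
    rw [h8]
    linarith

theorem gen : S_GEN := fun x A s hs =>
  ⟨fun hA hB => fwd x A s hA hB hs, fun hL => bwd x A s hL⟩

end Pool.Agent.P8H61.RF
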